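import Pool.Agent.W263.EP.Ord
import Pool.Agent.W263.EP.Conc

/-!
# The order of vanishing of `L(H^{2i+1}(X), s)` at the centre and one-sided doubling

`K` is a number field.  A system of real numbers `t v m` stands for the traces of the `m`-th power of
the geometric Frobenius at the finite place `v` on `H = H^w(X)` (or on a direct summand of it given by
a projector), `S` is a finite set of places which contains all places of bad reduction, and the Euler
factors at the places of `S` are arbitrary inverse polynomials `B_v(Nv^{-s})⁻¹` without poles for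
`Re s ≥ c`, where `c = (w+1)/2` is the centre of the conjectural functional equation (`c = i+1` if
`w = 2i+1`).  All that is used about the traces is the bound `|t v m| ≤ D Nv^{wm/2}`, which is Deligne's
theorem for all smooth projective `X`, with `D = dim H^w(X)`, and which Part C proves for all
cohomology groups of all products of curves `y² = f_j(x)`, `deg f_j` odd, over any number field.
-/

set_option autoImplicit false

namespace Pool.Agent.Results.MP_6dc9d1_nt.ExactOrder

open NumberField IsDedekindDomain Filter Topology Polynomial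

variable {K : Type} [Field K] [NumberField K]

/-- `|t_v(m)| ≤ D Nv^{wm/2}` for all `v ∉ S` and all `m ≥ 1`. -/
def WeightBound (t : HeightOneSpectrum (𝓞 K) → ℕ → ℝ) (w : ℕ)
    (S : Finset (HeightOneSpectrum (𝓞 K))) (D : ℝ) : Prop :=
  0 ≤ D ∧ ∀ v, v ∉ S → ∀ m : ℕ, 1 ≤ m →
    |t v m| ≤ D * (Ideal.absNorm v.asIdeal : ℝ) ^ ((w : ℝ) * m / 2)

open Classical in
/-- The Euler product `L(H, s)`.  At the places `v ∉ S` the factor is
`det(1 - Frob_v Nv^{-s} | H)⁻¹ = exp(∑_{m ≥ 1} t_v(m) Nv^{-ms} / m)`; at the places of the finite set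
`S` it is `B_v(Nv^{-s})⁻¹`. -/
noncomputable def LFun (t : HeightOneSpectrum (𝓞 K) → ℕ → ℝ) (S : Finset (HeightOneSpectrum (𝓞 K)))
    (B : HeightOneSpectrum (𝓞 K) → ℂ[X]) (s : ℂ) : ℂ :=
  ∏' v : HeightOneSpectrum (𝓞 K),
    if v ∈ S then ((B v).eval (((Ideal.absNorm v.asIdeal : ℕ) : ℂ) ^ (-s)))⁻¹
    else Complex.exp (∑' m : ℕ, (t v (m + 1) : ℂ) *
      ((Ideal.absNorm v.asIdeal : ℕ) : ℂ) ^ (-((m + 1 : ℂ) * s)) / (m + 1))

/-- The inverse Euler factor at the centre `c = (w+1)/2`: the number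
`det(1 - Frob_v Nv^{-c} | H) = exp(-∑_{m ≥ 1} t_v(m) Nv^{-mc} / m)`. -/
noncomputable def centralFactor (t : HeightOneSpectrum (𝓞 K) → ℕ → ℝ) (w : ℕ)
    (v : HeightOneSpectrum (𝓞 K)) : ℝ :=
  Real.exp (-∑' m : ℕ, t v (m + 1) *
    (Ideal.absNorm v.asIdeal : ℝ) ^ (-(((m : ℝ) + 1) * (((w : ℝ) + 1) / 2))) / (m + 1))

/-- The partial product `P(x) = ∏_{v ∉ S, Nv ≤ x} det(1 - Frob_v Nv^{-c} | H)`. -/
noncomputable def partialProduct (t : HeightOneSpectrum (𝓞 K) → ℕ → ℝ) (w : ℕ)
    (S : Finset (HeightOneSpectrum (𝓞 K))) (x : ℝ) : ℝ :=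
  ∏ᶠ v ∈ {v : HeightOneSpectrum (𝓞 K) | v ∉ S ∧ (Ideal.absNorm v.asIdeal : ℝ) ≤ x},
    centralFactor t w v

/-- `F` is an analytic continuation of `L(H, s)` to a neighbourhood of the real half line `s > c`. -/
def ContinuesAlongReals (t : HeightOneSpectrum (𝓞 K) → ℕ → ℝ) (w : ℕ)
    (S : Finset (HeightOneSpectrum (𝓞 K))) (B : HeightOneSpectrum (𝓞 K) → ℂ[X]) (F : ℂ → ℂ) : Prop :=
  (∀ s : ℝ, ((w : ℝ) + 1) / 2 < s → AnalyticAt ℂ F s) ∧
    ∀ s : ℝ, ((w : ℝ) + 2) / 2 < s → F s = LFun t S B s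

/-- `F` is an analytic continuation of `L(H, s)` to the half plane `Re s > c`, without zeros there. -/
def ContinuesWithoutZeros (t : HeightOneSpectrum (𝓞 K) → ℕ → ℝ) (w : ℕ)
    (S : Finset (HeightOneSpectrum (𝓞 K))) (B : HeightOneSpectrum (𝓞 K) → ℂ[X]) (F : ℂ → ℂ) : Prop :=
  DifferentiableOn ℂ F {s : ℂ | ((w : ℝ) + 1) / 2 < s.re} ∧
    (∀ s : ℂ, ((w : ℝ) + 1) / 2 < s.re → F s ≠ 0) ∧
    ∀ s : ℂ, ((w : ℝ) + 2) / 2 < s.re → F s = LFun t S B s

/-- `|F(s)|` has the exact order `(s - c)^r` as `s → c` from the right. -/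
def HasExactOrder (c : ℝ) (F : ℂ → ℂ) (r : ℕ) : Prop :=
  ∃ α β : ℝ, 0 < α ∧ ∀ᶠ s : ℝ in 𝓝[>] c, α * (s - c) ^ r ≤ ‖F s‖ ∧ ‖F s‖ ≤ β * (s - c) ^ r

/-! ### Products of curves -/

/-- Number of affine points of `y² = f(x)` with coordinates in the extension of degree `m` of the
finite field `k`, that is, the field of the elements of the algebraic closure of `k` that are fixed
by the `m`-th power of the Frobenius of `k`. -/
noncomputable def affineCount (k : Type) [Field k] (f : k[X]) (m : ℕ) : ℕ :=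
  Nat.card {P : AlgebraicClosure k × AlgebraicClosure k //
    P.1 ^ (Nat.card k ^ m) = P.1 ∧ P.2 ^ (Nat.card k ^ m) = P.2 ∧ P.2 ^ 2 = aeval P.1 f}

/-- Trace of the `m`-th power of the Frobenius at `v` on `H¹` of the smooth projective curve
`y² = f(x)`, `deg f` odd: it is `q^m + 1` minus the number of points over the field with `q^m`
elements, and there is one point at infinity. -/
noncomputable def traceH1 (v : HeightOneSpectrum (𝓞 K)) (f : (𝓞 K)[X]) (m : ℕ) : ℤ :=
  haveI : v.asIdeal.IsMaximal := v.isMaximal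
  letI : Field (𝓞 K ⧸ v.asIdeal) := Ideal.Quotient.field v.asIdeal
  (Ideal.absNorm v.asIdeal : ℤ) ^ m + 1 -
    (affineCount (𝓞 K ⧸ v.asIdeal) (f.map (Ideal.Quotient.mk v.asIdeal)) m + 1)

/-- Trace of the `m`-th power of the Frobenius at `v` on `H^k(X)`, `X` the product of the curves
`y² = f_j(x)`: by the Künneth formula it is the coefficient of `T^k` in
`∏_j (1 + Tr(Frob^m | H¹(C_j)) T + q^m T²)`. -/
noncomputable def traceH {n : ℕ} (f : Fin n → (𝓞 K)[X]) (k : ℕ) (v : HeightOneSpectrum (𝓞 K))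
    (m : ℕ) : ℝ :=
  (((∏ j, (1 + C (traceH1 v (f j) m) * X + C ((Ideal.absNorm v.asIdeal : ℤ) ^ m) * X ^ 2)).coeff k
    : ℤ) : ℝ)

/-- The dimension of `H^k(X)`: the coefficient of `T^k` in `∏_j (1 + 2g_j T + T²)`,
`2g_j = deg f_j - 1`. -/
noncomputable def bettiNumber {n : ℕ} (f : Fin n → (𝓞 K)[X]) (k : ℕ) : ℕ :=
  (∏ j, (1 + C ((f j).natDegree - 1) * X + X ^ 2 : ℕ[X])).coeff k

theorem affineCount_eq (k : Type) [Field k] (f : k[X]) (m : ℕ) :
    affineCount k f m = Pool.Agent.H126T.affPts k f 1 m := by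
  unfold affineCount Pool.Agent.H126T.affPts
  simp only [map_one, one_mul]

/-- **The exact order at the centre and one-sided doubling.**

Part A.  Let `t` be a system of Frobenius traces of weight `w` over a number field `K`, as above, with
centre `c = (w+1)/2`, and let `r ≥ 0` be an integer.  The following are equivalent.

1. `P(x)` has the exact order of magnitude `(log x)^r`.
2. `L(H, s)` has an analytic continuation to a neighbourhood of the real half line `s > c`, of exact
order `(s - c)^r` as `s → c⁺`, and `P(y) ≤ C P(x)` whenever `x ≤ y ≤ x²`, `x` large.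
3. `L(H, s)` has an analytic continuation to a neighbourhood of the real half line `s > c`, without
real zeros `s > c`, of exact order `(s - c)^r` as `s → c⁺`, and `P(x) ≤ C P(y)` whenever
`x ≤ y ≤ x²`, `x` large.
4. `L(H, s)` has an analytic continuation to the half plane `Re s > c`, without zeros there, of exact
order `(s - c)^r` as `s → c⁺`, and both inequalities hold.

Part B.  For a function `F` which is analytic at `c`, the exact order `(s - c)^r` from the right means
that `F` vanishes at `c` to the order `r`.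

Part C.  The bound assumed in Part A holds for `H^k(X)`, all `k`, with `w = k` and `D = dim H^k(X)`, if
`X` is a product of curves `y² = f_j(x)` over `K`, `deg f_j` odd, and `S` contains the places which
divide `2` or the leading coefficient of an `f_j`. -/
theorem result :
    (∀ (K : Type) [Field K] [NumberField K] (t : HeightOneSpectrum (𝓞 K) → ℕ → ℝ) (w : ℕ)
      (S : Finset (HeightOneSpectrum (𝓞 K))) (D : ℝ) (_ : WeightBound t w S D)
      (B : HeightOneSpectrum (𝓞 K) → ℂ[X])
      (_ : ∀ v ∈ S, ∀ s : ℂ, ((w : ℝ) + 1) / 2 ≤ s.re →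
        (B v).eval (((Ideal.absNorm v.asIdeal : ℕ) : ℂ) ^ (-s)) ≠ 0) (r : ℕ),
      List.TFAE [
        ∃ a b : ℝ, 0 < a ∧ ∀ᶠ x : ℝ in atTop, a * (Real.log x) ^ r ≤ partialProduct t w S x ∧
          partialProduct t w S x ≤ b * (Real.log x) ^ r,
        (∃ F : ℂ → ℂ, ContinuesAlongReals t w S B F ∧ HasExactOrder (((w : ℝ) + 1) / 2) F r) ∧
          ∃ C : ℝ, ∀ᶠ x : ℝ in atTop, ∀ y, x ≤ y → y ≤ x ^ 2 →
            partialProduct t w S y ≤ C * partialProduct t w S x,
        (∃ F : ℂ → ℂ, ContinuesAlongReals t w S B F ∧ HasExactOrder (((w : ℝ) + 1) / 2) F r ∧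
          ∀ s : ℝ, ((w : ℝ) + 1) / 2 < s → F s ≠ 0) ∧
          ∃ C : ℝ, ∀ᶠ x : ℝ in atTop, ∀ y, x ≤ y → y ≤ x ^ 2 →
            partialProduct t w S x ≤ C * partialProduct t w S y,
        (∃ F : ℂ → ℂ, ContinuesWithoutZeros t w S B F ∧ HasExactOrder (((w : ℝ) + 1) / 2) F r) ∧
          ∃ C : ℝ, ∀ᶠ x : ℝ in atTop, ∀ y, x ≤ y → y ≤ x ^ 2 →
            partialProduct t w S y ≤ C * partialProduct t w S x ∧
            partialProduct t w S x ≤ C * partialProduct t w S y]) ∧
    (∀ (c : ℝ) (F : ℂ → ℂ) (r : ℕ), AnalyticAt ℂ F c →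
      (HasExactOrder c F r ↔ analyticOrderAt F c = r)) ∧
    (∀ (K : Type) [Field K] [NumberField K] (n : ℕ) (f : Fin n → (𝓞 K)[X])
      (_ : ∀ j, Odd (f j).natDegree) (S : Finset (HeightOneSpectrum (𝓞 K)))
      (_ : ∀ v, v ∉ S → ∀ j, 2 * (f j).leadingCoeff ∉ v.asIdeal) (k : ℕ),
      WeightBound (traceH f k) k S (bettiNumber f k)) := by
  refine ⟨?_, ?_, ?_⟩
  · intro K _ _ t w S D ht B hB r
    have E : Pool.Agent.W263.EP.TData (Pool.Agent.H341R2.sysK K)
        (Pool.Agent.W263.EP.tn (Pool.Agent.H341R2.sysK K)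
          (S : Set (HeightOneSpectrum (𝓞 K))) t (w : ℝ)) D :=
      Pool.Agent.W263.EP.tdata ht.1 fun v hv m hm => ht.2 v hv m hm
    have hL : ∀ s, Pool.Agent.W263.EP.LFB (Pool.Agent.H341R2.sysK K) S B t s = LFun t S B s :=
      fun s => rfl
    have key := Pool.Agent.W263.EP.order_tfaeB (S := Pool.Agent.H341R2.sysK K) (Bs := S) (B := B)
      (tr := t) (ω := (w : ℝ)) E hB r
    unfold Pool.Agent.W263.EP.IsContB Pool.Agent.W263.EP.IsFullB Pool.Agent.W263.EP.OrdLike at key
    simp only [hL] at key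
    unfold ContinuesAlongReals ContinuesWithoutZeros HasExactOrder
    exact key
  · intro c F r h
    exact Pool.Agent.W263.EP.ordLike_iff h
  · intro K _ _ n f hodd S hS k
    refine ⟨by positivity, fun v hv m hm => ?_⟩
    have h1 := Pool.Agent.W263.EP.trHk_bound f hodd (hS v hv) k m hm
    have h2 : ∀ j, traceH1 v (f j) m = Pool.Agent.H126T.traceH1 v (f j) 1 m := by
      intro j
      unfold traceH1 Pool.Agent.H126T.traceH1
      rw [map_one, affineCount_eq]
      rfl
    have h3 : traceH f k v m = (Pool.Agent.W263.EP.trHk v f k m : ℝ) := by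
      unfold traceH Pool.Agent.W263.EP.trHk
      simp only [h2]
      rfl
    rw [h3]
    exact h1

end Pool.Agent.Results.MP_6dc9d1_nt.ExactOrder
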