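import Pool.Agent.W189.FC.Mot
import Pool.Agent.H341R2.NF.SysK

/-!
# Finite cut-offs at the centre: what every such formula for the order implies

`K` is a number field.  A system of real numbers `t v j` stands for the traces of the `j`-th power of
the geometric Frobenius at the finite place `v` on `H = H^w(X)`, `X` smooth projective over `K`
(`w = 2i + 1` in the problem); `S` is a finite set of places which contains the places of bad
reduction, and the Euler factors at the places of `S` are any inverse polynomials `B_v(Nv^{-s})⁻¹`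
without poles at the real points `s ≥ c`, where `c = (w+1)/2` is the centre (`c = i + 1` in the problem).
All that is used about the traces is the bound `|t v j| ≤ D Nv^{wj/2}`, Deligne's theorem.  `F` is an
entire function which agrees with `L(H, s)` at the real points `s > c + 1/2`.  No functional equation,
no bound for the growth of `F` and nothing about its zeros is assumed.

Let `P_v = det(1 - Frob_v Nv^{-c} | H) > 0`, `v ∉ S`, be the inverse Euler factor at the centre; for an
elliptic curve over `ℚ` it is `#E(𝔽_p)/p`.  Birch and Swinnerton-Dyer found their conjecture from the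
growth of `∑_{p ≤ X} log (#E(𝔽_p)/p)`, and Goldfeld (1982) showed that this is much deeper than the
conjecture: if `∏_{p ≤ X} #E(𝔽_p)/p ~ A (log X)^ρ`, then the Riemann hypothesis holds for `L(E, s)` and
`ρ = ord_{s=1} L(E, s)`.  Here the cut-off is arbitrary.  Let `ψ` be ANY bounded measurable function on
the real line, with any signs, which vanishes beyond some point, and put

  `Σ_ψ(T) = ∑_{v ∉ S} ψ(log Nv / T) log P_v`,

a finite sum, `T = log X`.

* Growth: let `α > 0` be such that `ψ` does not vanish almost everywhere on `(α, ∞)`.  If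
  `Σ_ψ(T) = O(e^{yT}) = O(X^y)`, then `F(s) ≠ 0` for `Re s > c + y/α`.  So the sums of a finite
  cut-off feel every zero of `F` to the right of the centre, real or complex; no cut-off can
  hide one.
* Goldfeld's theorem for every finite cut-off: let `ψ(0+) = 1` in the sense of Dini,
  `∫_0^1 |ψ(x) - 1| dx/x < ∞`.  If `Σ_ψ(T) / log T` converges to some real number `k`, then
  `F(s) ≠ 0` for all `Re s > c`, and `k = ord_{s=c} F`.

So every formula which gives the order of vanishing by finitely many Euler factors at a time, of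
this kind, implies the Riemann hypothesis.  The laws of `MP_6dc9d1_nt/RankLaw` and of
`MP_696deb_nt/AnalyticRankLaw`, which need no hypothesis on zeros, use weights of infinite support;
here it is shown that this is unavoidable.

Proof of the first part.  Let `H = F'/F - G'` be the logarithmic derivative of the Euler product without
its higher terms, near the centre.  The Laplace transform `L` of `Σ_ψ` is `∫ ψ(1/t) H(zt) dt` for
large `Re z`, and it is holomorphic for `Re z > y`.  Let `ρ` be the outermost zero on a ray from the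
centre.  On the two sides of this ray the integral continues to all `z` with `zt` beyond the other
zeros, and near the ray it is, up to a holomorphic function, a Cauchy transform of the
restriction of `ψ(1/t)` to an interval; the jump of a Cauchy transform recovers the function, so
`ψ(1/t)` vanishes near the end of its support, a contradiction.  The second part follows with an
Abelian comparison of `z L(z)` and `log z` for `z → 0+`.
(The general normalisation of traces is by seat 263, the sector bounds by seat 76.)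
-/

set_option autoImplicit false

namespace Pool.Agent.Results.MP_6dc9d1_nt.FiniteCutoffs

open NumberField IsDedekindDomain Filter Topology Polynomial MeasureTheory Set

variable {K : Type} [Field K] [NumberField K]

/-- `|t_v(j)| ≤ D Nv^{wj/2}` for all `v ∉ S` and all `j ≥ 1`. -/
def WeightBound (t : HeightOneSpectrum (𝓞 K) → ℕ → ℝ) (w : ℕ)
    (S : Finset (HeightOneSpectrum (𝓞 K))) (D : ℝ) : Prop :=
  0 ≤ D ∧ ∀ v, v ∉ S → ∀ j : ℕ, 1 ≤ j →
    |t v j| ≤ D * (Ideal.absNorm v.asIdeal : ℝ) ^ ((w : ℝ) * j / 2)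

open Classical in
/-- The Euler product `L(H, s)`.  At the places `v ∉ S` the factor is
`det(1 - Frob_v Nv^{-s} | H)⁻¹ = exp(∑_{j ≥ 1} t_v(j) Nv^{-js} / j)`; at the places of the finite set
`S` it is `B_v(Nv^{-s})⁻¹`. -/
noncomputable def LFun (t : HeightOneSpectrum (𝓞 K) → ℕ → ℝ) (S : Finset (HeightOneSpectrum (𝓞 K)))
    (B : HeightOneSpectrum (𝓞 K) → ℂ[X]) (s : ℂ) : ℂ :=
  ∏' v : HeightOneSpectrum (𝓞 K),
    if v ∈ S then ((B v).eval (((Ideal.absNorm v.asIdeal : ℕ) : ℂ) ^ (-s)))⁻¹
    else Complex.exp (∑' m : ℕ, (t v (m + 1) : ℂ) *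
      ((Ideal.absNorm v.asIdeal : ℕ) : ℂ) ^ (-((m + 1 : ℂ) * s)) / (m + 1))

/-- The centre `c = (w+1)/2`. -/
noncomputable def centre (w : ℕ) : ℝ := ((w : ℝ) + 1) / 2

/-- The Euler factors at the places of `S` have no poles at the real points `s ≥ c`. -/
def BadFactors (w : ℕ) (S : Finset (HeightOneSpectrum (𝓞 K)))
    (B : HeightOneSpectrum (𝓞 K) → ℂ[X]) : Prop :=
  ∀ v ∈ S, ∀ s : ℝ, centre w ≤ s →
    (B v).eval (((Ideal.absNorm v.asIdeal : ℕ) : ℂ) ^ (-(s : ℂ))) ≠ 0

/-- `F` is an entire function which agrees with `L(H, s)` at the real points `s > c + 1/2`. -/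
def IsLFunction (t : HeightOneSpectrum (𝓞 K) → ℕ → ℝ) (w : ℕ)
    (S : Finset (HeightOneSpectrum (𝓞 K))) (B : HeightOneSpectrum (𝓞 K) → ℂ[X]) (F : ℂ → ℂ) : Prop :=
  Differentiable ℂ F ∧ ∀ s : ℝ, centre w + 1 / 2 < s → F s = LFun t S B s

/-- The inverse Euler factor at the centre,
`P_v = det(1 - Frob_v Nv^{-c} | H) = exp(-∑_{j ≥ 1} t_v(j) Nv^{-jc} / j)`, `v ∉ S`. -/
noncomputable def centralFactor (t : HeightOneSpectrum (𝓞 K) → ℕ → ℝ) (w : ℕ)
    (v : HeightOneSpectrum (𝓞 K)) : ℝ :=
  Real.exp (-∑' m : ℕ, t v (m + 1) *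
    (Ideal.absNorm v.asIdeal : ℝ) ^ (-(((m : ℝ) + 1) * centre w)) / (m + 1))

open Classical in
/-- The sum `Σ_ψ(T) = ∑_{v ∉ S} ψ(log Nv / T) log P_v`. -/
noncomputable def cutSum (t : HeightOneSpectrum (𝓞 K) → ℕ → ℝ) (w : ℕ)
    (S : Finset (HeightOneSpectrum (𝓞 K))) (ψ : ℝ → ℝ) (T : ℝ) : ℝ :=
  ∑' v, if v ∈ S then 0 else
    ψ (Real.log (Ideal.absNorm v.asIdeal : ℝ) / T) * Real.log (centralFactor t w v)

/-- `ψ` is measurable, bounded, and vanishes beyond some point. -/
def IsCutoff (ψ : ℝ → ℝ) : Prop :=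
  Measurable ψ ∧ (∃ M : ℝ, ∀ x, |ψ x| ≤ M) ∧ ∃ A : ℝ, ∀ x, A < x → ψ x = 0

/-- `ψ(0+) = 1` in the sense of Dini: `∫_0^1 |ψ(x) - 1| dx/x < ∞`. -/
def DiniOne (ψ : ℝ → ℝ) : Prop := IntegrableOn (fun x : ℝ => (ψ x - 1) / x) (Ioc 0 1)

/-- **Every finite cut-off feels all zeros to the right of the centre, and Goldfeld's theorem holds
for every finite cut-off.** -/
theorem result (K : Type) [Field K] [NumberField K] (t : HeightOneSpectrum (𝓞 K) → ℕ → ℝ) (w : ℕ)
    (S : Finset (HeightOneSpectrum (𝓞 K))) (D : ℝ) (ht : WeightBound t w S D)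
    (B : HeightOneSpectrum (𝓞 K) → ℂ[X]) (hB : BadFactors w S B)
    (F : ℂ → ℂ) (hF : IsLFunction t w S B F) :
    ∃ n : ℕ, analyticOrderAt F (centre w) = n ∧ ∀ ψ : ℝ → ℝ, IsCutoff ψ →
      (∀ α y : ℝ, 0 < α → (¬ ∀ᵐ x : ℝ, α < x → ψ x = 0) → 0 ≤ y →
        (cutSum t w S ψ =O[atTop] fun T : ℝ => Real.exp (y * T)) →
        ∀ s : ℂ, centre w + y / α < s.re → F s ≠ 0) ∧
      (DiniOne ψ → ∀ k : ℝ,
        Tendsto (fun T : ℝ => cutSum t w S ψ T / Real.log T) atTop (𝓝 k) →
        (∀ s : ℂ, centre w < s.re → F s ≠ 0) ∧ k = n) := by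
  have E : Pool.Agent.W263.EP.TData (Pool.Agent.H341R2.sysK K)
      (Pool.Agent.W263.EP.tn (Pool.Agent.H341R2.sysK K)
        (S : Set (HeightOneSpectrum (𝓞 K))) t (w : ℝ)) D :=
    Pool.Agent.W263.EP.tdata ht.1 fun v hv m hm => ht.2 v hv m hm
  have hS : ∀ ψ T, cutSum t w S ψ T =
      Pool.Agent.W189.FC.Mot.cutS (Pool.Agent.H341R2.sysK K) S t (w : ℝ) ψ T :=
    fun ψ T => rfl
  have hF2 : ∀ s : ℝ, ((w : ℝ) + 2) / 2 < s →
      F s = Pool.Agent.W263.EP.LFB (Pool.Agent.H341R2.sysK K) S B t s := by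
    intro s hs
    have h1 : centre w + 1 / 2 < s := by
      unfold centre
      linarith
    exact hF.2 s h1
  obtain ⟨n, hn⟩ := Pool.Agent.W189.FC.Mot.order_fin (S := Pool.Agent.H341R2.sysK K) (Bs := S)
    (B := B) (tr := t) (ω := (w : ℝ)) E hB hF.1 hF2
  refine ⟨n, hn, fun ψ hψ => ?_⟩
  obtain ⟨hm, ⟨M, hM⟩, A, hA⟩ := hψ
  refine ⟨fun α y hα hne hy hO => ?_, fun hD k hk => ?_⟩
  · refine Pool.Agent.W189.FC.Mot.growth (S := Pool.Agent.H341R2.sysK K) (Bs := S)
      (B := B) (tr := t) (ω := (w : ℝ)) E hB hF.1 hF2 hm hM hA hα hne hy ?_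
    obtain ⟨C, hC⟩ := hO.bound
    obtain ⟨T₀, hT⟩ := eventually_atTop.1 hC
    refine ⟨C, T₀, fun T hT' => ?_⟩
    have h1 := hT T hT'
    rw [Real.norm_eq_abs, Real.norm_of_nonneg (Real.exp_pos _).le] at h1
    exact h1
  · obtain ⟨h1, m, hm1, hm2⟩ := Pool.Agent.W189.FC.Mot.goldfeld (S := Pool.Agent.H341R2.sysK K)
      (Bs := S) (B := B) (tr := t) (ω := (w : ℝ)) E hB hF.1 hF2 hm hM hA hD hk
    refine ⟨h1, ?_⟩
    have h2 : (n : ℕ∞) = m := hn.symm.trans hm1
    have h3 : n = m := by exact_mod_cast h2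
    rw [← hm2, h3]

end Pool.Agent.Results.MP_6dc9d1_nt.FiniteCutoffs
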