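import Pool.Agent.W76.BK.MotS
import Pool.Agent.W263.EP.Conc

/-!
# The order at the centre from Euler factors, unconditionally, with a sharp transition

`K` is a number field.  A system of real numbers `t v j` stands for the traces of the `j`-th power of
the geometric Frobenius at the finite place `v` on `H = H^w(X)`, `X` smooth projective over `K`
(`w = 2i + 1` in the problem); `S` is a finite set of places which contains the places of bad
reduction, and the Euler factors at the places of `S` are any inverse polynomials `B_v(Nv^{-s})⁻¹`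
without poles at the real points `s ≥ c`, where `c = (w+1)/2` is the centre (`c = i + 1` in the
problem).  All that is used about the traces is the bound `|t v j| ≤ D Nv^{wj/2}`, which is Deligne's
theorem for all smooth projective `X`, with `D = dim H^w(X)`, and which Part B proves for all
cohomology groups of all products of curves `y² = f_j(x)`, `deg f_j` odd, over any number field.

`F` is any continuation of `L(H, s)` along the real half line `s ≥ c`, meromorphic at its points.
NOTHING is assumed about zeros and poles, a functional equation, growth, or a continuation to complex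
points.  Let `P_v = det(1 - Frob_v Nv^{-c} | H) > 0`, `v ∉ S`, be the inverse Euler factor at the
centre; for an elliptic curve over `ℚ` it is `#E(𝔽_p)/p`.  For an angle `γ ≥ 0` and `T > 0` put

`Σ_γ(T) = ∑_{v ∉ S} cos(γ log Nv / T) / Γ(1 + log Nv / T) · log P_v`.

The series converges absolutely and its weights tend to `1`: `exp(Σ_γ(T))` is a smooth version of the
product of the `P_v`, `Nv ≤ x`, `T = log x`.

* Above the angle `π/2`, for every `γ > π/2`: `Σ_γ(T) = n log T + O(1)`, `n = ord_{s=c} F`, without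
  any hypothesis.  So `ord_{s=c} L = r` if and only if `Σ_γ(T) / log T → r`.
* Below the angle `π/2`, for every `0 ≤ γ < π/2`: `Σ_γ(T) = n log T + O(1)` if and only if `F` has
  neither zeros nor poles at the real points `s > c`; and if `β > c` is one, then `|Σ_γ(T)|` exceeds
  `exp(exp(y T)) = exp(x^y)` for arbitrarily large `T`, for every `y < β - c`.

Hence Beilinson's rank conjecture for `X` is equivalent to the statement
`Σ_γ(T) / log T → dim CH^{i+1}(X)_0 ⊗ ℚ`, an asymptotic law about counts of points over finite fields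
and nothing else, whenever both sides of the conjecture have a meaning, and `π/2` is the
exact angle where this begins.  With sharp cut-offs (Birch and Swinnerton-Dyer, Goldfeld, Kuo and
Murty, Conrad) such a statement needs the Riemann hypothesis for `L(H, s)` and more, and with the
weights `1/Γ(1 + v)`, the angle `0`, it needs the absence of real zeros.

Idea: `e^{iγv}/Γ(1 + v) = (2πi)⁻¹ ∫ exp(e^z) e^{-(z - iγ)v} dz` along the boundary of a half strip
`Re z ≥ a, -π ≤ Im z ≤ θ`, `π/2 < θ < 3π/2`.  The real zeros and poles of `F` are on the line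
`Im z = γ`.  If `γ > π/2`, then `θ` can be chosen below `γ`, and the contour does not meet them; if
`γ < π/2`, they are inside of the strip, at points where `|exp(e^z)| = exp(e^{Re z} cos γ)` is doubly
exponentially large.  The contour method for elliptic curves is by the seats 187, 189, 392, 371, 125,
349 and 376 of this team, and the normalisation of general traces by seat 263.
-/

set_option autoImplicit false

namespace Pool.Agent.Results.MP_6dc9d1_nt.RankLaw

open NumberField IsDedekindDomain Filter Topology Polynomial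

variable {K : Type} [Field K] [NumberField K]

/-- `|t_v(j)| ≤ D Nv^{wj/2}` for all `v ∉ S` and all `j ≥ 1`. -/
def WeightBound (t : HeightOneSpectrum (𝓞 K) → ℕ → ℝ) (w : ℕ)
    (S : Finset (HeightOneSpectrum (𝓞 K))) (D : ℝ) : Prop :=
  0 ≤ D ∧ ∀ v, v ∉ S → ∀ j : ℕ, 1 ≤ j →
    |t v j| ≤ D * (Ideal.absNorm v.asIdeal : ℝ) ^ ((w : ℝ) * j / 2)

open Classical in
/-- The Euler product `L(H, s)`.  At the places `v ∉ S` the factor is
`det(1 - Frob_v Nv^{-s} | H)⁻¹ = exp(∑_{j ≥ 1} t_v(j) Nv^{-js} / j)`; at the places of the finite set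
`S` it is `B_v(Nv^{-s})⁻¹`. -/
noncomputable def LFun (t : HeightOneSpectrum (𝓞 K) → ℕ → ℝ) (S : Finset (HeightOneSpectrum (𝓞 K)))
    (B : HeightOneSpectrum (𝓞 K) → ℂ[X]) (s : ℂ) : ℂ :=
  ∏' v : HeightOneSpectrum (𝓞 K),
    if v ∈ S then ((B v).eval (((Ideal.absNorm v.asIdeal : ℕ) : ℂ) ^ (-s)))⁻¹
    else Complex.exp (∑' m : ℕ, (t v (m + 1) : ℂ) *
      ((Ideal.absNorm v.asIdeal : ℕ) : ℂ) ^ (-((m + 1 : ℂ) * s)) / (m + 1))

/-- The centre `c = (w+1)/2`. -/
noncomputable def centre (w : ℕ) : ℝ := ((w : ℝ) + 1) / 2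

/-- `F` continues `L(H, s)` along the real half line `s ≥ c` and is meromorphic at its points. -/
def ContinuesAlongReals (t : HeightOneSpectrum (𝓞 K) → ℕ → ℝ) (w : ℕ)
    (S : Finset (HeightOneSpectrum (𝓞 K))) (B : HeightOneSpectrum (𝓞 K) → ℂ[X]) (F : ℂ → ℂ) : Prop :=
  (∀ s : ℝ, centre w ≤ s → MeromorphicAt F s) ∧
    ∀ s : ℝ, centre w + 1 / 2 < s → F s = LFun t S B s

/-- The inverse Euler factor at the centre,
`P_v = det(1 - Frob_v Nv^{-c} | H) = exp(-∑_{j ≥ 1} t_v(j) Nv^{-jc} / j)`, `v ∉ S`. -/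
noncomputable def centralFactor (t : HeightOneSpectrum (𝓞 K) → ℕ → ℝ) (w : ℕ)
    (v : HeightOneSpectrum (𝓞 K)) : ℝ :=
  Real.exp (-∑' m : ℕ, t v (m + 1) *
    (Ideal.absNorm v.asIdeal : ℝ) ^ (-(((m : ℝ) + 1) * centre w)) / (m + 1))

open Classical in
/-- The term `cos(γ log Nv / T) · log P_v / Γ(1 + log Nv / T)`, `v ∉ S`. -/
noncomputable def rankTerm (t : HeightOneSpectrum (𝓞 K) → ℕ → ℝ) (w : ℕ)
    (S : Finset (HeightOneSpectrum (𝓞 K))) (γ T : ℝ) (v : HeightOneSpectrum (𝓞 K)) : ℝ :=
  if v ∈ S then 0 else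
    Real.cos (γ * Real.log (Ideal.absNorm v.asIdeal : ℝ) / T) * Real.log (centralFactor t w v) /
      Real.Gamma (1 + Real.log (Ideal.absNorm v.asIdeal : ℝ) / T)

/-- The sum `Σ_γ(T)` of all these terms. -/
noncomputable def rankSum (t : HeightOneSpectrum (𝓞 K) → ℕ → ℝ) (w : ℕ)
    (S : Finset (HeightOneSpectrum (𝓞 K))) (γ T : ℝ) : ℝ := ∑' v, rankTerm t w S γ T v

/-- The law `Σ_γ(T) = r log T + O(1)`. -/
def LogLaw (t : HeightOneSpectrum (𝓞 K) → ℕ → ℝ) (w : ℕ) (S : Finset (HeightOneSpectrum (𝓞 K)))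
    (γ : ℝ) (r : ℤ) : Prop :=
  ∃ C T₀ : ℝ, ∀ T ≥ T₀, |rankSum t w S γ T - r * Real.log T| ≤ C

/-! ### Products of curves -/

/-- Number of affine points of `y² = f(x)` with coordinates in the extension of degree `m` of the
finite field `k`, that is, the field of the elements of the algebraic closure of `k` that are fixed
by the `m`-th power of the Frobenius of `k`. -/
noncomputable def affineCount (k : Type) [Field k] (f : k[X]) (m : ℕ) : ℕ :=
  Nat.card {P : AlgebraicClosure k × AlgebraicClosure k //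
    P.1 ^ (Nat.card k ^ m) = P.1 ∧ P.2 ^ (Nat.card k ^ m) = P.2 ∧ P.2 ^ 2 = aeval P.1 f}

/-- Trace of the `m`-th power of the Frobenius at `v` on `H¹` of the smooth projective curve
`y² = f(x)`, `deg f` odd: it is `q^m + 1` minus the number of points over the field with `q^m`
elements, and there is one point at infinity. -/
noncomputable def traceH1 (v : HeightOneSpectrum (𝓞 K)) (f : (𝓞 K)[X]) (m : ℕ) : ℤ :=
  haveI : v.asIdeal.IsMaximal := v.isMaximal
  letI : Field (𝓞 K ⧸ v.asIdeal) := Ideal.Quotient.field v.asIdeal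
  (Ideal.absNorm v.asIdeal : ℤ) ^ m + 1 -
    (affineCount (𝓞 K ⧸ v.asIdeal) (f.map (Ideal.Quotient.mk v.asIdeal)) m + 1)

/-- Trace of the `m`-th power of the Frobenius at `v` on `H^k(X)`, `X` the product of the curves
`y² = f_j(x)`: by the Künneth formula it is the coefficient of `T^k` in
`∏_j (1 + Tr(Frob^m | H¹(C_j)) T + q^m T²)`. -/
noncomputable def traceH {n : ℕ} (f : Fin n → (𝓞 K)[X]) (k : ℕ) (v : HeightOneSpectrum (𝓞 K))
    (m : ℕ) : ℝ :=
  (((∏ j, (1 + C (traceH1 v (f j) m) * X + C ((Ideal.absNorm v.asIdeal : ℤ) ^ m) * X ^ 2)).coeff k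
    : ℤ) : ℝ)

/-- The dimension of `H^k(X)`: the coefficient of `T^k` in `∏_j (1 + 2g_j T + T²)`,
`2g_j = deg f_j - 1`. -/
noncomputable def bettiNumber {n : ℕ} (f : Fin n → (𝓞 K)[X]) (k : ℕ) : ℕ :=
  (∏ j, (1 + C ((f j).natDegree - 1) * X + X ^ 2 : ℕ[X])).coeff k

theorem affineCount_eq (k : Type) [Field k] (f : k[X]) (m : ℕ) :
    affineCount k f m = Pool.Agent.H126T.affPts k f 1 m := by
  unfold affineCount Pool.Agent.H126T.affPts
  simp only [map_one, one_mul]

/-- **The order at the centre from Euler factors, with a sharp transition at the angle `π/2`.**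

Part A.  Let `t` be a system of Frobenius traces of weight `w` over a number field `K`, as above, with
centre `c = (w+1)/2`, let `B_v`, `v ∈ S`, be polynomials with `B_v(Nv^{-s}) ≠ 0` for real `s ≥ c`, and
let `F` be any continuation of `L(H, s)` along the real half line `s ≥ c`, meromorphic at its points.
Then, unconditionally:

1. the series `Σ_γ(T)` converges absolutely, for all `γ` and all `T > 0`;
2. `F` has an order `n ∈ ℤ` at `c`;
3. for every `γ > π/2`: `Σ_γ(T) = n log T + O(1)`, and, for every integer `r`, `ord_c F = r` iff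
`Σ_γ(T) / log T → r`;
4. for every `0 ≤ γ < π/2`: `Σ_γ(T) = n log T + O(1)` iff `F` has neither zeros nor poles at
the real points `s > c`; and if `β > c` is a zero or a pole, then for every `y < β - c` there are
arbitrarily large `T` with `|Σ_γ(T)| ≥ exp(exp(y T))`;
5. if `F` has neither zeros nor poles at the real points `s > c`, then `Σ_γ(T) = n log T + O(1)` for all
`γ ≥ 0`, `γ = π/2` included.

Part B.  The bound assumed in Part A holds for `H^k(X)`, all `k`, with `w = k` and `D = dim H^k(X)`, if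
`X` is a product of curves `y² = f_j(x)` over `K`, `deg f_j` odd, and `S` contains the places which
divide `2` or the leading coefficient of an `f_j`. -/
theorem result :
    (∀ (K : Type) [Field K] [NumberField K] (t : HeightOneSpectrum (𝓞 K) → ℕ → ℝ) (w : ℕ)
      (S : Finset (HeightOneSpectrum (𝓞 K))) (D : ℝ) (_ : WeightBound t w S D)
      (B : HeightOneSpectrum (𝓞 K) → ℂ[X])
      (_ : ∀ v ∈ S, ∀ s : ℝ, centre w ≤ s →
        (B v).eval (((Ideal.absNorm v.asIdeal : ℕ) : ℂ) ^ (-(s : ℂ))) ≠ 0)
      (F : ℂ → ℂ) (_ : ContinuesAlongReals t w S B F),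
      (∀ γ T : ℝ, 0 < T → Summable fun v => |rankTerm t w S γ T v|) ∧
      ∃ n : ℤ, meromorphicOrderAt F (centre w) = n ∧
        (∀ γ : ℝ, Real.pi / 2 < γ → LogLaw t w S γ n ∧
          ∀ r : ℤ, meromorphicOrderAt F (centre w) = r ↔
            Tendsto (fun T : ℝ => rankSum t w S γ T / Real.log T) atTop (𝓝 (r : ℝ))) ∧
        (∀ γ : ℝ, 0 ≤ γ → γ < Real.pi / 2 →
          (LogLaw t w S γ n ↔
            ∀ σ : ℝ, centre w < σ → meromorphicOrderAt F (σ : ℂ) = 0) ∧
          ∀ β : ℝ, centre w < β → meromorphicOrderAt F (β : ℂ) ≠ 0 → ∀ y : ℝ, y < β - centre w →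
            ∃ᶠ T : ℝ in atTop, Real.exp (Real.exp (y * T)) ≤ |rankSum t w S γ T|) ∧
        ((∀ σ : ℝ, centre w < σ → meromorphicOrderAt F (σ : ℂ) = 0) →
          ∀ γ : ℝ, 0 ≤ γ → LogLaw t w S γ n)) ∧
    (∀ (K : Type) [Field K] [NumberField K] (n : ℕ) (f : Fin n → (𝓞 K)[X])
      (_ : ∀ j, Odd (f j).natDegree) (S : Finset (HeightOneSpectrum (𝓞 K)))
      (_ : ∀ v, v ∉ S → ∀ j, 2 * (f j).leadingCoeff ∉ v.asIdeal) (k : ℕ),
      WeightBound (traceH f k) k S (bettiNumber f k)) := by
  refine ⟨?_, ?_⟩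
  · intro K _ _ t w S D ht B hB F hF
    have E : Pool.Agent.W263.EP.TData (Pool.Agent.H341R2.sysK K)
        (Pool.Agent.W263.EP.tn (Pool.Agent.H341R2.sysK K)
          (S : Set (HeightOneSpectrum (𝓞 K))) t (w : ℝ)) D :=
      Pool.Agent.W263.EP.tdata ht.1 fun v hv m hm => ht.2 v hv m hm
    have hT : ∀ γ T x, rankTerm t w S γ T x =
        Pool.Agent.W76.BK.MotS.rankTerm (Pool.Agent.H341R2.sysK K) S t (w : ℝ) γ T x :=
      fun γ T x => rfl
    have hS : ∀ γ T, rankSum t w S γ T =
        Pool.Agent.W76.BK.MotS.rankSum (Pool.Agent.H341R2.sysK K) S t (w : ℝ) γ T :=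
      fun γ T => rfl
    have hF2 : ∀ s : ℝ, ((w : ℝ) + 2) / 2 < s →
        F s = Pool.Agent.W263.EP.LFB (Pool.Agent.H341R2.sysK K) S B t s := by
      intro s hs
      have h1 : centre w + 1 / 2 < s := by
        unfold centre
        linarith
      exact hF.2 s h1
    obtain ⟨n, h1, h2, h3, h4⟩ :=
      Pool.Agent.W76.BK.MotS.motive_rank (S := Pool.Agent.H341R2.sysK K) (Bs := S) (B := B)
        (tr := t) (ω := (w : ℝ)) E hB hF.1 hF2
    exact ⟨fun γ T hT' => Pool.Agent.W76.BK.MotS.rankTerm_summable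
      (S := Pool.Agent.H341R2.sysK K) (Bs := S) (tr := t) (ω := (w : ℝ)) E γ hT',
      n, h1, h2, h4, h3⟩
  · intro K _ _ n f hodd S hS k
    refine ⟨by positivity, fun v hv m hm => ?_⟩
    have h1 := Pool.Agent.W263.EP.trHk_bound f hodd (hS v hv) k m hm
    have h2 : ∀ j, traceH1 v (f j) m = Pool.Agent.H126T.traceH1 v (f j) 1 m := by
      intro j
      unfold traceH1 Pool.Agent.H126T.traceH1
      rw [map_one, affineCount_eq]
      rfl
    have h3 : traceH f k v m = (Pool.Agent.W263.EP.trHk v f k m : ℝ) := by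
      unfold traceH Pool.Agent.W263.EP.trHk
      simp only [h2]
      rfl
    rw [h3]
    exact h1

end Pool.Agent.Results.MP_6dc9d1_nt.RankLaw
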