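import Pool.Agent.W524.SH.Mean

/-!
# Short one-sided windows at the centre

`K` is a number field.  A system of real numbers `t v m` stands for the traces of the `m`-th power of
the geometric Frobenius at the finite place `v` on `H = H^w(X)`, `X` smooth projective over `K` (or on
a direct summand of it given by a projector); `S` is a finite set of places which contains all places
of bad reduction, and the Euler factors at the places of `S` are arbitrary inverse polynomials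
`B_v(Nv^{-s})⁻¹` without poles for `Re s ≥ c`, where `c = (w+1)/2` is the centre (`c = i+1` if
`w = 2i+1`).  All that is used about the traces is the bound `|t v m| ≤ D Nv^{wm/2}`, which is Deligne's
theorem for all smooth projective `X`, with `D = dim H^w(X)`.

`L(H, s)` is supposed to continue analytically to `Re s > c - 1`, with polynomial growth.  For elliptic
curves over `ℚ` (and all `H` cut out by cusp forms) this is known.  The theorem describes when the
order of vanishing and the leading coefficient at the centre can be read off from the partial products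
of the local factors at the centre: it suffices (and is necessary) to control these products from ONE
side on the SHORT windows `[x, x + k x / log x]`.  For `H = H¹(E)`, `E/ℚ` an elliptic curve, Goldfeld
(1982), Kuo and Murty, and Conrad (2005) have two-sided criteria for the existence of the limit.

The proof combines Landau's lemma with a bound of Cramér's type for the mean square over `[x, x²]` of
the logarithm of the normalised product, `O(1 / log x)`, under the Riemann hypothesis (which is deduced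
from the one-sided condition first).
-/

set_option autoImplicit false

namespace Pool.Agent.Results.MP_6dc9d1_nt.ShortWindows

open NumberField IsDedekindDomain Filter Topology Polynomial

variable {K : Type} [Field K] [NumberField K]

/-- `|t_v(m)| ≤ D Nv^{wm/2}` for all `v ∉ S` and all `m ≥ 1`. -/
def WeightBound (t : HeightOneSpectrum (𝓞 K) → ℕ → ℝ) (w : ℕ)
    (S : Finset (HeightOneSpectrum (𝓞 K))) (D : ℝ) : Prop :=
  0 ≤ D ∧ ∀ v, v ∉ S → ∀ m : ℕ, 1 ≤ m →
    |t v m| ≤ D * (Ideal.absNorm v.asIdeal : ℝ) ^ ((w : ℝ) * m / 2)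

/-- The Euler factors at the places of `S` have no poles for `Re s ≥ c = (w+1)/2`. -/
def BadFactors (w : ℕ) (S : Finset (HeightOneSpectrum (𝓞 K)))
    (B : HeightOneSpectrum (𝓞 K) → ℂ[X]) : Prop :=
  ∀ v ∈ S, ∀ s : ℂ, ((w : ℝ) + 1) / 2 ≤ s.re →
    (B v).eval (((Ideal.absNorm v.asIdeal : ℕ) : ℂ) ^ (-s)) ≠ 0

open Classical in
/-- The Euler product `L(H, s)`.  At the places `v ∉ S` the factor is
`det(1 - Frob_v Nv^{-s} | H)⁻¹ = exp(∑_{m ≥ 1} t_v(m) Nv^{-ms} / m)`; at the places of the finite set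
`S` it is `B_v(Nv^{-s})⁻¹`. -/
noncomputable def LFun (t : HeightOneSpectrum (𝓞 K) → ℕ → ℝ) (S : Finset (HeightOneSpectrum (𝓞 K)))
    (B : HeightOneSpectrum (𝓞 K) → ℂ[X]) (s : ℂ) : ℂ :=
  ∏' v : HeightOneSpectrum (𝓞 K),
    if v ∈ S then ((B v).eval (((Ideal.absNorm v.asIdeal : ℕ) : ℂ) ^ (-s)))⁻¹
    else Complex.exp (∑' m : ℕ, (t v (m + 1) : ℂ) *
      ((Ideal.absNorm v.asIdeal : ℕ) : ℂ) ^ (-((m + 1 : ℂ) * s)) / (m + 1))

/-- `F` is an analytic continuation of `L(H, s)` to the half plane `Re s > c - 1`, of polynomial growth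
there. -/
def Continues (t : HeightOneSpectrum (𝓞 K) → ℕ → ℝ) (w : ℕ)
    (S : Finset (HeightOneSpectrum (𝓞 K))) (B : HeightOneSpectrum (𝓞 K) → ℂ[X]) (F : ℂ → ℂ) : Prop :=
  (∀ s : ℂ, ((w : ℝ) + 1) / 2 - 1 < s.re → DifferentiableAt ℂ F s) ∧
  (∀ s : ℂ, ((w : ℝ) + 2) / 2 < s.re → F s = LFun t S B s) ∧
    ∃ (C : ℝ) (A : ℕ), ∀ s : ℂ, ((w : ℝ) + 1) / 2 - 1 < s.re → ‖F s‖ ≤ C * (1 + ‖s‖) ^ A

/-- The inverse Euler factor at the centre `c = (w+1)/2`: the number
`det(1 - Frob_v Nv^{-c} | H) = exp(-∑_{m ≥ 1} t_v(m) Nv^{-mc} / m)`. -/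
noncomputable def centralFactor (t : HeightOneSpectrum (𝓞 K) → ℕ → ℝ) (w : ℕ)
    (v : HeightOneSpectrum (𝓞 K)) : ℝ :=
  Real.exp (-∑' m : ℕ, t v (m + 1) *
    (Ideal.absNorm v.asIdeal : ℝ) ^ (-(((m : ℝ) + 1) * (((w : ℝ) + 1) / 2))) / (m + 1))

/-- The partial product `P(x) = ∏_{v ∉ S, Nv ≤ x} det(1 - Frob_v Nv^{-c} | H)`. -/
noncomputable def partialProduct (t : HeightOneSpectrum (𝓞 K) → ℕ → ℝ) (w : ℕ)
    (S : Finset (HeightOneSpectrum (𝓞 K))) (x : ℝ) : ℝ :=
  ∏ᶠ v ∈ {v : HeightOneSpectrum (𝓞 K) | v ∉ S ∧ (Ideal.absNorm v.asIdeal : ℝ) ≤ x},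
    centralFactor t w v

/-- The corrected product
`P*(x) = |∏_{v ∈ S} B_v(Nv^{-c})| · P(x) · exp(∑_{v ∉ S, √x < Nv ≤ x} t_v(2) / (2 Nv^{w+1}))`. -/
noncomputable def starProduct (t : HeightOneSpectrum (𝓞 K) → ℕ → ℝ) (w : ℕ)
    (S : Finset (HeightOneSpectrum (𝓞 K))) (B : HeightOneSpectrum (𝓞 K) → ℂ[X]) (x : ℝ) : ℝ :=
  ‖∏ v ∈ S, (B v).eval (((Ideal.absNorm v.asIdeal : ℕ) : ℂ) ^ (-((((w : ℝ) + 1) / 2 : ℝ) : ℂ)))‖ *
    (partialProduct t w S x * Real.exp (∑ᶠ v ∈ {v : HeightOneSpectrum (𝓞 K) | v ∉ S ∧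
      √x < (Ideal.absNorm v.asIdeal : ℝ) ∧ (Ideal.absNorm v.asIdeal : ℝ) ≤ x},
        t v 2 * (Ideal.absNorm v.asIdeal : ℝ) ^ (-((w : ℝ) + 1)) / 2))

/-- `Q` has the exact order of magnitude `(log x) ^ q`: `a (log x) ^ q ≤ Q(x) ≤ b (log x) ^ q` for
large `x`, with constants `a, b > 0`. -/
def ExactOrder (Q : ℝ → ℝ) (q : ℝ) : Prop :=
  ∃ a b : ℝ, 0 < a ∧ 0 < b ∧ ∀ᶠ x : ℝ in atTop,
    a * Real.log x ^ q ≤ Q x ∧ Q x ≤ b * Real.log x ^ q

/-- `Q(y) ≤ C Q(x)` for all large `x` and `x ≤ y ≤ x + k x / log x`. -/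
def Up (Q : ℝ → ℝ) (k C : ℝ) : Prop :=
  ∀ᶠ x : ℝ in atTop, ∀ y, x ≤ y → y ≤ x * (1 + k / Real.log x) → Q y ≤ C * Q x

/-- `Q(x) ≤ C Q(y)` for all large `x` and `x ≤ y ≤ x + k x / log x`. -/
def Down (Q : ℝ → ℝ) (k C : ℝ) : Prop :=
  ∀ᶠ x : ℝ in atTop, ∀ y, x ≤ y → y ≤ x * (1 + k / Real.log x) → Q x ≤ C * Q y

/-- The absolute value `|F^{(r)}(c)| / r!` of the leading coefficient of `F` at `c`. -/
noncomputable def leadAbs (F : ℂ → ℂ) (c : ℝ) (r : ℕ) : ℝ :=
  ‖iteratedDeriv r F c‖ / (r.factorial : ℝ)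

/-- The expected constant `e^{γ r} / |L*(H, c)|`. -/
noncomputable def constant (F : ℂ → ℂ) (c : ℝ) (r : ℕ) : ℝ :=
  Real.exp (r * Real.eulerMascheroniConstant) / leadAbs F c r

theorem SUp_iff {Q : ℝ → ℝ} :
    Pool.Agent.W524.SH.SUp Q ↔ ∀ k C : ℝ, 0 < k → 1 < C → Up Q k C := by
  constructor
  · intro h k C hk hC
    have := h (C - 1) k (by linarith) hk
    rwa [add_sub_cancel] at this
  · intro h ε k hε hk
    exact h k (1 + ε) hk (by linarith)

theorem SLo_iff {Q : ℝ → ℝ} :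
    Pool.Agent.W524.SH.SLo Q ↔ ∀ k C : ℝ, 0 < k → 1 < C → Down Q k C := by
  constructor
  · intro h k C hk hC
    have := h (C - 1) k (by linarith) hk
    rwa [add_sub_cancel] at this
  · intro h ε k hε hk
    exact h k (1 + ε) hk (by linarith)

/-- **Short one-sided windows at the centre.**

Let `t` be a system of Frobenius traces of weight `w` over a number field `K`, as above, with centre
`c = (w+1)/2`, and let `F` be an analytic continuation of `L(H, s)` to `Re s > c - 1` of polynomial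
growth.  Nothing is assumed about the zeros, and there is no functional equation.  Then the order
`r` of `F` at `c` is finite, `Λ = |F^{(r)}(c)| / r! > 0`, and with `A = e^{γ r} / Λ`:

A. Equivalent are: `P` has the exact order `(log x)^r`; `P` has the exact order `(log x)^m` for some real
`m`; for some `k, C > 0`: `P(y) ≤ C P(x)` for large `x` and `x ≤ y ≤ x + k x / log x`; `F` has no real zeros
`s > c`, and for some `k, C > 0`: `P(x) ≤ C P(y)` for such `x`, `y`.

B. Equivalent are: `P*(x) / (log x)^r → A`; `P*(x) ~ A' (log x)^m` for some real `m` and `A' > 0`; for all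
`k > 0` and `C > 1`: `P(y) ≤ C P(x)` for large `x` and `x ≤ y ≤ x + k x / log x`; `F` has no real zeros
`s > c`, and for all `k > 0` and `C > 1`: `P(x) ≤ C P(y)` for such `x`, `y`.

C. For a real number `q`, `P` has the exact order `(log x)^q` if and only if `r = q` and the third
condition of A holds; `P*(x) ~ A' (log x)^q` for some `A' > 0` if and only if `r = q` and the third
condition of B holds.

D. The third condition of A (hence each condition of A and B) implies the Riemann hypothesis: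
`F(s) ≠ 0` for `Re s > c`. -/
theorem result (K : Type) [Field K] [NumberField K] (t : HeightOneSpectrum (𝓞 K) → ℕ → ℝ) (w : ℕ)
    (S : Finset (HeightOneSpectrum (𝓞 K))) (D : ℝ) (ht : WeightBound t w S D)
    (B : HeightOneSpectrum (𝓞 K) → ℂ[X]) (hB : BadFactors w S B)
    (F : ℂ → ℂ) (hF : Continues t w S B F) :
    ∃ r : ℕ, analyticOrderAt F ((((w : ℝ) + 1) / 2 : ℝ) : ℂ) = r ∧
    0 < leadAbs F (((w : ℝ) + 1) / 2) r ∧
    -- A
    List.TFAE [
      ExactOrder (partialProduct t w S) r,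
      ∃ m : ℝ, ExactOrder (partialProduct t w S) m,
      ∃ k C : ℝ, 0 < k ∧ 0 < C ∧ Up (partialProduct t w S) k C,
      (∀ s : ℝ, ((w : ℝ) + 1) / 2 < s → F s ≠ 0) ∧
        ∃ k C : ℝ, 0 < k ∧ 0 < C ∧ Down (partialProduct t w S) k C] ∧
    -- B
    List.TFAE [
      Tendsto (fun x : ℝ => starProduct t w S B x / Real.log x ^ r) atTop
        (𝓝 (constant F (((w : ℝ) + 1) / 2) r)),
      ∃ m A : ℝ, 0 < A ∧
        Tendsto (fun x : ℝ => starProduct t w S B x / Real.log x ^ m) atTop (𝓝 A),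
      ∀ k C : ℝ, 0 < k → 1 < C → Up (partialProduct t w S) k C,
      (∀ s : ℝ, ((w : ℝ) + 1) / 2 < s → F s ≠ 0) ∧
        ∀ k C : ℝ, 0 < k → 1 < C → Down (partialProduct t w S) k C] ∧
    -- C
    (∀ q : ℝ,
      (ExactOrder (partialProduct t w S) q ↔
        (r : ℝ) = q ∧ ∃ k C : ℝ, 0 < k ∧ 0 < C ∧ Up (partialProduct t w S) k C) ∧
      ((∃ A : ℝ, 0 < A ∧
          Tendsto (fun x : ℝ => starProduct t w S B x / Real.log x ^ q) atTop (𝓝 A)) ↔
        (r : ℝ) = q ∧ ∀ k C : ℝ, 0 < k → 1 < C → Up (partialProduct t w S) k C)) ∧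
    -- D
    (∀ k C : ℝ, 0 < k → 0 < C → Up (partialProduct t w S) k C →
      ∀ s : ℂ, ((w : ℝ) + 1) / 2 < s.re → F s ≠ 0) := by
  obtain ⟨hd, he, hg⟩ := hF
  have E : Pool.Agent.W263.EP.TData (Pool.Agent.H341R2.sysK K)
      (Pool.Agent.W263.EP.tn (Pool.Agent.H341R2.sysK K)
        (S : Set (HeightOneSpectrum (𝓞 K))) t (w : ℝ)) D :=
    Pool.Agent.W263.EP.tdata ht.1 fun v hv m hm => ht.2 v hv m hm
  have hF' : Pool.Agent.W263.EP.IsContB (Pool.Agent.H341R2.sysK K) S B t (w : ℝ) F :=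
    Pool.Agent.W524.SH.isContB hd he
  have hA : AnalyticAt ℂ F ((((w : ℝ) + 1) / 2 : ℝ) : ℂ) :=
    Pool.Agent.W524.SH.an_centre (ω := (w : ℝ)) hd
  have hSl := Pool.Agent.W263.EP.slow_sysK K
  obtain ⟨r, hr⟩ := Pool.Agent.W524.LV.order_finite (S := Pool.Agent.H341R2.sysK K) (Bs := S)
    (B := B) (tr := t) (ω := (w : ℝ)) E hB hF' hA
  have T1 := Pool.Agent.W524.SH.order_short (S := Pool.Agent.H341R2.sysK K) (Bs := S)
    (B := B) (tr := t) (ω := (w : ℝ)) E hB hd he hSl hr hg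
  have T2 := Pool.Agent.W524.SH.window_tfae (S := Pool.Agent.H341R2.sysK K) (Bs := S)
    (B := B) (tr := t) (ω := (w : ℝ)) E hB hd he hSl hr hg
  have O1 := Pool.Agent.W524.LV.order_tfae' (S := Pool.Agent.H341R2.sysK K) (Bs := S)
    (B := B) (tr := t) (ω := (w : ℝ)) E hSl hB hF' hA hr
  have O2 := Pool.Agent.W524.LV.limit_tfae' (S := Pool.Agent.H341R2.sysK K) (Bs := S)
    (B := B) (tr := t) (ω := (w : ℝ)) E hSl hB hF' hA hr
  rw [SUp_iff, SLo_iff] at T2
  refine ⟨r, hr, (Pool.Agent.W263.EP.lead_limit_at hA hr).1, T1, T2, fun q => ⟨?_, ?_⟩, ?_⟩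
  · refine (Pool.Agent.W524.LV.eord_iff_order (S := Pool.Agent.H341R2.sysK K) (Bs := S)
      (B := B) (tr := t) (ω := (w : ℝ)) E hSl hB hF' hA hr q).trans (and_congr_right fun _ => ?_)
    exact (O1.out 2 0).trans (T1.out 0 2)
  · refine (Pool.Agent.W524.LV.lim_iff_order (S := Pool.Agent.H341R2.sysK K) (Bs := S)
      (B := B) (tr := t) (ω := (w : ℝ)) E hSl hB hF' hA hr q).trans (and_congr_right fun _ => ?_)
    exact (O2.out 2 0).trans (T2.out 0 2)
  · intro k C hk hC h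
    exact Pool.Agent.W524.SH.rh_of_BUp (S := Pool.Agent.H341R2.sysK K) (Bs := S)
      (B := B) (tr := t) (ω := (w : ℝ)) E hB hd he hr hk hC h

end Pool.Agent.Results.MP_6dc9d1_nt.ShortWindows
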